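import Pool.Agent.Lib_helper3.HTI.Defs
import Pool.Agent.Lib_helper59.HT.Defs

/-!
# The homology of `Y_S` and the reduced boundary matrix
-/

set_option autoImplicit false

open Finset Matrix

namespace Pool.Agent.HTI

open Pool.Agent.HT (E')

noncomputable section

variable {n : ℕ}

/-- `∂ ∂ = 0` -/
theorem dOne_bdTriangle (R : Type) [CommRing R] (t : Triangle n) :
    dOne R n (bdTriangle R t) = 0 := by
  unfold bdTriangle dOne
  rw [map_add, map_sub, Fintype.linearCombination_apply_single,
    Fintype.linearCombination_apply_single, Fintype.linearCombination_apply_single]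
  simp only [bdEdge, one_smul]
  abel

theorem range_dTwo_le (R : Type) [CommRing R] (S : Finset (Triangle n)) :
    LinearMap.range (dTwo R S) ≤ LinearMap.ker (dOne R n) := by
  rintro _ ⟨c, rfl⟩
  rw [LinearMap.mem_ker, dTwo, Fintype.linearCombination_apply, map_sum]
  refine Finset.sum_eq_zero fun t _ => ?_
  rw [map_smul, dOne_bdTriangle, smul_zero]

/-- restriction to the edges which do not contain the vertex `0` -/
def res (R : Type) [CommRing R] (n : ℕ) : (Edge n → R) →ₗ[R] (E' n → R) where
  toFun c := fun e => c ⟨e.1, e.2.2⟩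
  map_add' _ _ := rfl
  map_smul' _ _ := rfl

/-- the reduced boundary matrix -/
def coef (t : Triangle n) (e : E' n) : ℤ :=
  (if e.1 = (t.1.2.1, t.1.2.2) then (1 : ℤ) else 0) - (if e.1 = (t.1.1, t.1.2.2) then (1 : ℤ) else 0)
    + (if e.1 = (t.1.1, t.1.2.1) then (1 : ℤ) else 0)

theorem res_bdTriangle (R : Type) [CommRing R] (t : Triangle n) (e : E' n) :
    res R n (bdTriangle R t) e = (coef t e : R) := by
  simp only [res, LinearMap.coe_mk, AddHom.coe_mk, bdTriangle, coef, Pi.add_apply, Pi.sub_apply,
    Pi.single_apply, Subtype.mk.injEq]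
  push_cast
  rfl

theorem res_inj (R : Type) [CommRing R] (_hn : 0 < n) (c : Edge n → R) (h1 : dOne R n c = 0)
    (h2 : res R n c = 0) : c = 0 := by
  have hE : ∀ e : E' n, c ⟨e.1, e.2.2⟩ = 0 := fun e => congrFun h2 e
  funext e
  by_cases he : 0 < e.1.1.val
  · exact hE ⟨e.1, he, e.2⟩
  · -- an edge at the vertex 0
    have h3 := congrFun h1 e.1.2
    rw [dOne, Fintype.linearCombination_apply, Finset.sum_apply] at h3
    rw [Finset.sum_eq_single e] at h3
    · simpa [bdEdge, (ne_of_gt e.2), (ne_of_lt e.2)] using h3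
    · intro f _ hf
      by_cases hf0 : 0 < f.1.1.val
      · rw [hE ⟨f.1, hf0, f.2⟩]
        simp
      · have hf2 : e.1.2 ≠ f.1.2 := by
          intro h
          apply hf
          apply Subtype.ext
          apply Prod.ext
          · apply Fin.ext; omega
          · exact h.symm
        have hf1 : e.1.2 ≠ f.1.1 := by
          intro h
          have := e.2
          rw [Fin.lt_def] at this
          rw [h] at this
          omega
        simp [bdEdge, hf1, hf2]
    · intro h; exact absurd (Finset.mem_univ _) h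

/-- the cone over an edge -/
def cone (hn : 0 < n) (e : E' n) : Triangle n :=
  ⟨(⟨0, hn⟩, e.1.1, e.1.2), by
    refine ⟨?_, e.2.2⟩
    rw [Fin.lt_def]; exact e.2.1⟩

theorem coef_cone (hn : 0 < n) (e f : E' n) : coef (cone hn e) f = if f = e then 1 else 0 := by
  have h1 : ¬ f.1 = ((cone hn e).1.1, (cone hn e).1.2.2) := by
    intro h
    have := f.2.1
    rw [h] at this
    exact lt_irrefl _ this
  have h2 : ¬ f.1 = ((cone hn e).1.1, (cone hn e).1.2.1) := by
    intro h
    have := f.2.1
    rw [h] at this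
    exact lt_irrefl _ this
  unfold coef
  rw [if_neg h1, if_neg h2]
  by_cases h : f = e
  · have h3 : f.1 = ((cone hn e).1.2.1, (cone hn e).1.2.2) := by subst h; rfl
    rw [if_pos h3, if_pos h]; norm_num
  · have h3 : ¬ f.1 = ((cone hn e).1.2.1, (cone hn e).1.2.2) := fun h3 => h (Subtype.ext h3)
    rw [if_neg h3, if_neg h]; norm_num

theorem res_surj (R : Type) [CommRing R] (hn : 0 < n) (d : E' n → R) :
    ∃ c : Edge n → R, dOne R n c = 0 ∧ res R n c = d := by
  refine ⟨∑ e, d e • bdTriangle R (cone hn e), ?_, ?_⟩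
  · rw [map_sum]
    exact Finset.sum_eq_zero fun e _ => by rw [map_smul, dOne_bdTriangle, smul_zero]
  · funext f
    rw [map_sum, Finset.sum_apply]
    simp only [map_smul, Pi.smul_apply, res_bdTriangle, coef_cone, smul_eq_mul]
    simp

/-- the cycles are determined by their values on the edges which do not contain `0` -/
def cyc (R : Type) [CommRing R] (hn : 0 < n) : LinearMap.ker (dOne R n) ≃ₗ[R] (E' n → R) :=
  LinearEquiv.ofBijective ((res R n).comp (LinearMap.ker (dOne R n)).subtype) (by
    constructor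
    · rw [← LinearMap.ker_eq_bot, LinearMap.ker_eq_bot']
      rintro ⟨c, hc⟩ h
      exact Subtype.ext (res_inj R hn c hc h)
    · intro d
      obtain ⟨c, h1, h2⟩ := res_surj R hn d
      exact ⟨⟨c, h1⟩, h2⟩)

/-- the reduced boundary map -/
def red (R : Type) [CommRing R] (S : Finset (Triangle n)) : (S → R) →ₗ[R] (E' n → R) :=
  (res R n).comp (dTwo R S)

theorem red_apply (R : Type) [CommRing R] (S : Finset (Triangle n)) (c : S → R) (e : E' n) :
    red R S c e = ∑ t : S, (coef t.1 e : R) * c t := by
  rw [red, LinearMap.comp_apply, dTwo, Fintype.linearCombination_apply, map_sum, Finset.sum_apply]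
  refine Finset.sum_congr rfl fun t _ => ?_
  rw [map_smul, Pi.smul_apply, res_bdTriangle, smul_eq_mul, mul_comm]

theorem map_cyc (R : Type) [CommRing R] (hn : 0 < n) (S : Finset (Triangle n)) :
    Submodule.map (cyc R hn).toLinearMap
      ((LinearMap.range (dTwo R S)).submoduleOf (LinearMap.ker (dOne R n))) =
      LinearMap.range (red R S) := by
  ext d
  constructor
  · rintro ⟨⟨c, hc⟩, h1, rfl⟩
    obtain ⟨x, hx⟩ := h1
    refine ⟨x, ?_⟩
    simp only [Submodule.subtype_apply] at hx
    show res R n (dTwo R S x) = res R n c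
    rw [hx]
  · rintro ⟨x, rfl⟩
    refine ⟨⟨dTwo R S x, range_dTwo_le R S ⟨x, rfl⟩⟩, ⟨x, rfl⟩, rfl⟩

/-- `H_1(Y_S, R)` is the cokernel of the reduced boundary map -/
def homEquiv (R : Type) [CommRing R] (hn : 0 < n) (S : Finset (Triangle n)) :
    HOne R S ≃ₗ[R] ((E' n → R) ⧸ LinearMap.range (red R S)) :=
  Submodule.Quotient.equiv _ _ (cyc R hn) (map_cyc R hn S)

theorem ker_red (R : Type) [CommRing R] (hn : 0 < n) (S : Finset (Triangle n)) :
    LinearMap.ker (red R S) = LinearMap.ker (dTwo R S) := by
  ext x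
  rw [LinearMap.mem_ker, LinearMap.mem_ker]
  constructor
  · intro h
    exact res_inj R hn _ (range_dTwo_le R S ⟨x, rfl⟩) h
  · intro h
    rw [red, LinearMap.comp_apply, h, map_zero]

end

end Pool.Agent.HTI
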