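import Pool.Agent.Lib_helper3.HTI.Alg

/-!
# The order of `H_1(Y_S, ℤ)` and the Gram determinant
-/

set_option autoImplicit false

open Finset Matrix

namespace Pool.Agent.HTI

open Pool.Agent.HT (E')

noncomputable section

variable {n : ℕ}

/-- the square reduced boundary matrix -/
def sq (S : Finset (Triangle n)) (σ : E' n ≃ S) : Matrix (E' n) (E' n) ℤ :=
  Matrix.of fun e i => coef (σ i).1 e

/-- the Gram matrix -/
def gram (S : Finset (Triangle n)) : Matrix (E' n) (E' n) ℤ :=
  Matrix.of fun e f => ∑ t ∈ S, coef t e * coef t f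

theorem det_gram (S : Finset (Triangle n)) (σ : E' n ≃ S) : (gram S).det = (sq S σ).det ^ 2 := by
  have h : gram S = sq S σ * (sq S σ)ᵀ := by
    ext e f
    rw [Matrix.mul_apply, gram, Matrix.of_apply, ← Finset.sum_coe_sort S]
    rw [← Equiv.sum_comp σ]
    rfl
  rw [h, Matrix.det_mul, Matrix.det_transpose, sq]
  ring

theorem red_eq (R : Type) [CommRing R] (S : Finset (Triangle n)) (σ : E' n ≃ S) :
    red R S = (Matrix.toLin' ((sq S σ).map (Int.castRingHom R))).comp
      (LinearEquiv.funCongrLeft R R σ).toLinearMap := by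
  apply LinearMap.ext
  intro c
  funext e
  rw [red_apply, LinearMap.comp_apply, Matrix.toLin'_apply, Matrix.mulVec, dotProduct,
    ← Equiv.sum_comp σ]
  rfl

theorem range_red (R : Type) [CommRing R] (S : Finset (Triangle n)) (σ : E' n ≃ S) :
    LinearMap.range (red R S) =
      LinearMap.range (Matrix.toLin' ((sq S σ).map (Int.castRingHom R))) := by
  rw [red_eq R S σ]
  exact LinearMap.range_comp_of_range_eq_top _ (LinearEquiv.range _)

/-- the order of the homology -/
theorem card_hOne (hn : 0 < n) (S : Finset (Triangle n)) (σ : E' n ≃ S) (h0 : (sq S σ).det ≠ 0) :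
    Nat.card (HOne ℤ S) = (sq S σ).det.natAbs := by
  rw [Nat.card_congr (homEquiv ℤ hn S).toEquiv, range_red ℤ S σ]
  have e1 : (sq S σ).map (Int.castRingHom ℤ) = sq S σ := by
    ext i j; simp
  rw [e1]
  have hinj : Function.Injective (Matrix.toLin' (sq S σ)) := by
    rw [Matrix.toLin'_apply', Matrix.coe_mulVecLin]
    exact Matrix.mulVec_injective_of_det_ne_zero h0
  have h2 := Submodule.natAbs_det_equiv (LinearMap.range (Matrix.toLin' (sq S σ)))
    (LinearEquiv.ofInjective (Matrix.toLin' (sq S σ)) hinj)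
  rw [← h2]
  have h3 : (LinearMap.range (Matrix.toLin' (sq S σ))).subtype ∘ₗ
      AddMonoidHom.toIntLinearMap
        ((LinearEquiv.ofInjective (Matrix.toLin' (sq S σ)) hinj : (E' n → ℤ) ≃ₗ[ℤ] _) :
          (E' n → ℤ) →+ LinearMap.range (Matrix.toLin' (sq S σ))) = Matrix.toLin' (sq S σ) := by
    apply LinearMap.ext
    intro x
    rfl
  rw [h3, LinearMap.det_toLin']

theorem isHypertree_iff (hn : 0 < n) (S : Finset (Triangle n)) :
    IsHypertree S ↔ Function.Surjective (red ℚ S) ∧ Function.Injective (red ℚ S) := by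
  unfold IsHypertree
  rw [(homEquiv ℚ hn S).toEquiv.subsingleton_congr, Submodule.Quotient.subsingleton_iff,
    LinearMap.range_eq_top, Submodule.subsingleton_iff_eq_bot, ← ker_red ℚ hn S,
    LinearMap.ker_eq_bot]

theorem card_of_isHypertree (hn : 0 < n) (S : Finset (Triangle n)) (h : IsHypertree S) :
    S.card = Fintype.card (E' n) := by
  obtain ⟨h1, h2⟩ := (isHypertree_iff hn S).1 h
  have h3 := (LinearEquiv.ofBijective (red ℚ S) ⟨h2, h1⟩).finrank_eq
  rw [Module.finrank_fintype_fun_eq_card, Module.finrank_fintype_fun_eq_card,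
    Fintype.card_coe] at h3
  exact h3

theorem isHypertree_iff_det (hn : 0 < n) (S : Finset (Triangle n)) (σ : E' n ≃ S) :
    IsHypertree S ↔ (sq S σ).det ≠ 0 := by
  rw [isHypertree_iff hn S]
  have e1 : ((sq S σ).map (Int.castRingHom ℚ)).det = ((sq S σ).det : ℚ) := by
    rw [← RingHom.mapMatrix_apply, ← RingHom.map_det]; rfl
  have e2 : (sq S σ).det ≠ 0 ↔ IsUnit ((sq S σ).map (Int.castRingHom ℚ)) := by
    rw [Matrix.isUnit_iff_isUnit_det, isUnit_iff_ne_zero, e1]
    exact_mod_cast Iff.rfl
  rw [e2]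
  have hs : Function.Surjective (red ℚ S) ↔
      Function.Surjective ((sq S σ).map (Int.castRingHom ℚ)).mulVec := by
    rw [← LinearMap.range_eq_top, range_red ℚ S σ, LinearMap.range_eq_top]
    rfl
  have hi : Function.Injective (red ℚ S) ↔
      Function.Injective ((sq S σ).map (Int.castRingHom ℚ)).mulVec := by
    rw [red_eq ℚ S σ, LinearMap.coe_comp]
    constructor
    · intro h
      exact (Function.Injective.of_comp_iff' _ (LinearEquiv.funCongrLeft ℚ ℚ σ).bijective).1 h
    · intro h
      exact Function.Injective.comp h (LinearEquiv.injective _)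
  rw [hs, hi, Matrix.mulVec_surjective_iff_isUnit, Matrix.mulVec_injective_iff_isUnit, and_self]

/-- the determinantal weight of a set of triangles of the right cardinality -/
theorem det_gram_eq (hn : 0 < n) (S : Finset (Triangle n)) (hS : S.card = Fintype.card (E' n)) :
    (IsHypertree S → ((gram S).det : ℤ) = (Nat.card (HOne ℤ S) : ℤ) ^ 2 ∧
      Nat.card (HOne ℤ S) ≠ 0) ∧ (¬ IsHypertree S → (gram S).det = 0) := by
  have σ : E' n ≃ S := Fintype.equivOfCardEq (by rw [Fintype.card_coe, hS])
  constructor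
  · intro h
    have h0 := (isHypertree_iff_det hn S σ).1 h
    rw [det_gram S σ, card_hOne hn S σ h0, Int.natCast_natAbs, sq_abs]
    exact ⟨rfl, fun h => h0 (Int.natAbs_eq_zero.1 h)⟩
  · intro h
    rw [isHypertree_iff_det hn S σ, not_not] at h
    rw [det_gram S σ, h]; norm_num

end

end Pool.Agent.HTI
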