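import Mathlib

/-!
# Determinantal 2-hypertrees (MP_a0015d_pr): textbook definitions

The complex `Y_S` has the vertex set `Fin n`, all edges, and the triangles in `S`. Its simplicial
chain complex (coefficients in `R`) is `R^S → R^Edge → R^n`, with `∂ [a, b, c] = [b, c] - [a, c] +
[a, b]` and `∂ [a, b] = [b] - [a]`.
-/

set_option autoImplicit false

namespace Pool.Agent.HTI

noncomputable section

/-- The edges `[a, b]`, `a < b`, of the complete graph with the vertices `0, ..., n - 1`. -/
abbrev Edge (n : ℕ) : Type := {e : Fin n × Fin n // e.1 < e.2}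

/-- The triangles `[a, b, c]`, `a < b < c`. -/
abbrev Triangle (n : ℕ) : Type := {t : Fin n × Fin n × Fin n // t.1 < t.2.1 ∧ t.2.1 < t.2.2}

/-- The boundary `[b] - [a]` of the edge `[a, b]`. -/
def bdEdge (R : Type) [CommRing R] {n : ℕ} (e : Edge n) : Fin n → R :=
  Pi.single e.1.2 1 - Pi.single e.1.1 1

/-- The boundary `[b, c] - [a, c] + [a, b]` of the triangle `[a, b, c]`. -/
def bdTriangle (R : Type) [CommRing R] {n : ℕ} (t : Triangle n) : Edge n → R :=
  Pi.single ⟨(t.1.2.1, t.1.2.2), t.2.2⟩ 1 - Pi.single ⟨(t.1.1, t.1.2.2), t.2.1.trans t.2.2⟩ 1 +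
    Pi.single ⟨(t.1.1, t.1.2.1), t.2.1⟩ 1

/-- The boundary map from the 1-chains to the 0-chains of `Y_S`. -/
def dOne (R : Type) [CommRing R] (n : ℕ) : (Edge n → R) →ₗ[R] (Fin n → R) :=
  Fintype.linearCombination R (bdEdge R)

/-- The boundary map from the 2-chains to the 1-chains of `Y_S`. -/
def dTwo (R : Type) [CommRing R] {n : ℕ} (S : Finset (Triangle n)) : (S → R) →ₗ[R] (Edge n → R) :=
  Fintype.linearCombination R (fun t : S => bdTriangle R t.1)

/-- The homology group `H_1(Y_S, R)`: the 1-cycles modulo the boundaries. -/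
abbrev HOne (R : Type) [CommRing R] {n : ℕ} (S : Finset (Triangle n)) : Type :=
  LinearMap.ker (dOne R n) ⧸ (LinearMap.range (dTwo R S)).submoduleOf (LinearMap.ker (dOne R n))

/-- The homology group `H_2(Y_S, R)`: the 2-cycles (`Y_S` has no simplices of dimension 3). -/
abbrev HTwo (R : Type) [CommRing R] {n : ℕ} (S : Finset (Triangle n)) : Type :=
  LinearMap.ker (dTwo R S)

/-- `Y_S` is a hypertree: `H_1(Y_S, ℚ) = 0` and `H_2(Y_S, ℚ) = 0`. -/
def IsHypertree {n : ℕ} (S : Finset (Triangle n)) : Prop :=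
  Subsingleton (HOne ℚ S) ∧ Subsingleton (HTwo ℚ S)

open Classical in
/-- The sum of `|H_1(Y_S, ℤ)|^2` over the hypertrees `Y_S` on `n` vertices with the property
`A`. -/
def weight (n : ℕ) (A : Finset (Triangle n) → Prop) : ℝ :=
  ∑ S : Finset (Triangle n) with IsHypertree S ∧ A S, (Nat.card (HOne ℤ S) : ℝ) ^ 2

/-- The probability that the determinantal hypertree `T_n` has the property `A`. -/
def prob (n : ℕ) (A : Finset (Triangle n) → Prop) : ℝ :=
  weight n A / weight n (fun _ => True)

end

end Pool.Agent.HTI
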