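import Pool.Agent.Lib_helper3.HTI.Count
import Pool.Agent.Lib_helper3.HTI.K.FinalA
import Pool.Agent.Lib_helper6.HT.BRIDGE

/-!
# Tightness of the primary parts, uniformly in the prime
-/

set_option autoImplicit false

open Finset Matrix

namespace Pool.Agent.HTI

open Pool.Agent.HT (E' M wt mass Z AA)

/-! ### the tuple form, uniformly in the prime (the proof of `HT.main_tuple`) -/

theorem main_uniform (ε : ℝ) (hε : 0 < ε) :
    ∃ L : ℕ, ∀ p : ℕ, p.Prime → ∃ N : ℕ, ∀ n : ℕ, N ≤ n →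
      mass (fun τ : E' n → HT.Tri n => p ^ L < p ^ padicValInt p (M τ).det) < ε * Z n := by
  obtain ⟨δ, hδ, hG1⟩ := HT.no_small_cycles
  set ε1 : ℝ := ε / 33 with hε1
  have hε1pos : 0 < ε1 := by positivity
  obtain ⟨κ, hκ⟩ := HT.few_small ε1 hε1pos
  -- choose s
  obtain ⟨s, hs1, hs2⟩ : ∃ s : ℕ, 1 ≤ s ∧ (κ : ℝ) ≤ δ * ε1 * (2 : ℝ) ^ s := by
    obtain ⟨s, hs⟩ := pow_unbounded_of_one_lt ((κ : ℝ) / (δ * ε1)) (one_lt_two : (1 : ℝ) < 2)
    refine ⟨s + 1, by omega, ?_⟩
    have hpos : (0 : ℝ) < δ * ε1 := by positivity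
    rw [div_lt_iff₀ hpos] at hs
    have : (2 : ℝ) ^ s ≤ (2 : ℝ) ^ (s + 1) := pow_le_pow_right₀ one_le_two (by omega)
    nlinarith
  refine ⟨s * s, fun p hp => ?_⟩
  have hs : (κ : ℝ) / (p ^ s : ℕ) ≤ δ * ε1 := by
    have hp2 : (2 : ℝ) ≤ p := by exact_mod_cast hp.two_le
    have hps : (2 : ℝ) ^ s ≤ (p : ℝ) ^ s := pow_le_pow_left₀ (by norm_num) hp2 s
    have hps0 : (0 : ℝ) < (p : ℝ) ^ s := by positivity
    push_cast
    rw [div_le_iff₀ hps0]
    refine hs2.trans ?_
    exact mul_le_mul_of_nonneg_left hps (by positivity)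
  obtain ⟨N1, hN1⟩ := HT.one_modulus p hp δ hδ hG1 ε1 hε1pos κ hκ s hs 1 le_rfl
  obtain ⟨N2, hN2⟩ := HT.one_modulus p hp δ hδ hG1 ε1 hε1pos κ hκ s hs s hs1
  refine ⟨max 3 (max N1 N2), fun n hn => ?_⟩
  have hn3 : 3 ≤ n := le_trans (le_max_left _ _) hn
  have hn' := le_trans (le_max_right _ _) hn
  have e1 := hN1 n (le_trans (le_max_left _ _) hn')
  have e2 := hN2 n (le_trans (le_max_right _ _) hn')
  have hZ : 0 < Z n := HT.Z_pos n (by omega)
  have h : mass (fun τ : E' n → HT.Tri n => p ^ (s * s) < p ^ padicValInt p (M τ).det) ≤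
      mass (fun τ : E' n → HT.Tri n => AA p (p ^ 1) (p ^ s) τ) +
      mass (fun τ : E' n → HT.Tri n => AA p (p ^ s) (p ^ s) τ) := by
    refine (HT.mass_mono ?_).trans (HT.mass_or _ _)
    intro τ hw hτ
    have hdet : (M τ).det ≠ 0 := by
      intro h0
      apply hw
      simp [wt, h0]
    have hv : s * s < padicValInt p (M τ).det :=
      (Nat.pow_lt_pow_iff_right hp.one_lt).mp hτ
    exact HT.val_split n p s hp hs1 τ hdet hv.le
  calc mass (fun τ : E' n → HT.Tri n => p ^ (s * s) < p ^ padicValInt p (M τ).det)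
      ≤ 16 * ε1 * Z n + 16 * ε1 * Z n := h.trans (add_le_add e1 e2)
    _ < ε * Z n := by
        have : 16 * ε1 * Z n + 16 * ε1 * Z n = (32 / 33) * (ε * Z n) := by
          rw [hε1]; ring
        rw [this]
        have : 0 < ε * Z n := by positivity
        linarith

/-! ### the primary component -/

theorem card_primary {G : Type} [AddCommGroup G] (p : ℕ) [hp : Fact p.Prime]
    (hG : Nat.card G ≠ 0) :
    Nat.card (AddCommGroup.primaryComponent G p) = p ^ padicValNat p (Nat.card G) := by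
  classical
  have hfin : Finite G := Nat.finite_of_card_ne_zero hG
  set P := AddCommGroup.primaryComponent G p with hP
  have hmem : ∀ x : G, x ∈ P ↔ ∃ k : ℕ, p ^ k • x = 0 := fun x =>
    AddCommGroup.mem_primaryComponent
  have hP0 : Nat.card P ≠ 0 := Nat.card_pos.ne'
  -- the order is a power of p
  have h1 : ∀ {q : ℕ}, q.Prime → q ∣ Nat.card P → q = p := by
    intro q hq hqd
    have : Fact q.Prime := ⟨hq⟩
    obtain ⟨x, hx⟩ := exists_prime_addOrderOf_dvd_card' q hqd
    obtain ⟨k, hk⟩ := (hmem x.1).1 x.2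
    have h2 : p ^ k • x = 0 := Subtype.ext (by simpa using hk)
    have h3 : q ∣ p ^ k := by rw [← hx]; exact addOrderOf_dvd_of_nsmul_eq_zero h2
    exact (Nat.prime_dvd_prime_iff_eq hq hp.out).1 (hq.dvd_of_dvd_pow h3)
  have h2 := Nat.eq_prime_pow_of_unique_prime_dvd hP0 (fun {d} hd hdd => h1 hd hdd)
  -- the index is prime to p
  have h3 : ¬ p ∣ P.index := by
    intro hd
    rw [AddSubgroup.index] at hd
    obtain ⟨x, hx⟩ := exists_prime_addOrderOf_dvd_card' (G := G ⧸ P) p hd
    obtain ⟨y, rfl⟩ := QuotientAddGroup.mk_surjective x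
    have h4 : p • (y : G ⧸ P) = 0 := by rw [← hx]; exact addOrderOf_nsmul_eq_zero _
    have h5 : p • y ∈ P := by
      rw [← QuotientAddGroup.mk_nsmul, QuotientAddGroup.eq_zero_iff] at h4
      exact h4
    obtain ⟨k, hk⟩ := (hmem _).1 h5
    have h6 : y ∈ P := (hmem y).2 ⟨k + 1, by rw [pow_succ, mul_smul]; exact hk⟩
    have h7 : (y : G ⧸ P) = 0 := (QuotientAddGroup.eq_zero_iff _).2 h6
    rw [h7, addOrderOf_zero] at hx
    exact hp.out.one_lt.ne hx
  have h4 := P.card_mul_index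
  have hi0 : P.index ≠ 0 := by
    intro h0; rw [h0, mul_zero] at h4; exact hG h4.symm
  have h5 : padicValNat p (Nat.card G) = padicValNat p (Nat.card P) := by
    rw [← h4, padicValNat.mul hP0 hi0, padicValNat.eq_zero_of_not_dvd h3, add_zero]
  rw [h5, h2, padicValNat.prime_pow]

/-! ### the sum over the hypertrees -/

/-- a set of triangles as a set of sorted triples -/
def toTri {n : ℕ} (S : Finset (Triangle n)) : Finset (HT.Tri n) :=
  S.map (Function.Embedding.subtype _)

theorem gram_toTri {n : ℕ} (S : Finset (Triangle n)) : HT.bridge_G (toTri S) = gram S := by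
  ext e f
  rw [HT.bridge_G, gram, Matrix.of_apply, Matrix.of_apply, toTri, Finset.sum_map]
  refine Finset.sum_congr rfl fun t _ => ?_
  have h1 := HT.bridge_bd t.1 t.2 e
  have h2 := HT.bridge_bd t.1 t.2 f
  rw [coef, coef, h1, h2]
  rfl

theorem sum_toTri {n : ℕ} (F : Finset (HT.Tri n) → ℝ) :
    ∑ T ∈ (HT.bridge_Srt n).powerset.filter (fun T => T.card = (n - 1).choose 2), F T =
      ∑ S : Finset (Triangle n), if S.card = (n - 1).choose 2 then F (toTri S) else 0 := by
  classical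
  rw [← Finset.sum_filter]
  symm
  refine Finset.sum_bij (fun S _ => toTri S) ?_ ?_ ?_ ?_
  · intro S hS
    rw [Finset.mem_filter] at hS
    rw [Finset.mem_filter, Finset.mem_powerset]
    refine ⟨?_, by rw [toTri, Finset.card_map]; exact hS.2⟩
    intro t ht
    rw [toTri, Finset.mem_map] at ht
    obtain ⟨s, _, rfl⟩ := ht
    unfold HT.bridge_Srt
    rw [Finset.mem_filter]
    exact ⟨Finset.mem_univ _, s.2⟩
  · intro S _ S' _ h
    exact Finset.map_injective _ h
  · intro T hT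
    rw [Finset.mem_filter, Finset.mem_powerset] at hT
    have e : toTri (T.subtype (fun t : HT.Tri n => t.1 < t.2.1 ∧ t.2.1 < t.2.2)) = T := by
      rw [toTri, Finset.subtype_map, Finset.filter_eq_self]
      intro t ht
      have := hT.1 ht
      unfold HT.bridge_Srt at this
      rw [Finset.mem_filter] at this
      exact this.2
    refine ⟨T.subtype (fun t : HT.Tri n => t.1 < t.2.1 ∧ t.2.1 < t.2.2), ?_, e⟩
    rw [Finset.mem_filter]
    refine ⟨Finset.mem_univ _, ?_⟩
    rw [← hT.2]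
    conv_rhs => rw [← e]
    rw [toTri, Finset.card_map]
  · intro S _
    rfl

theorem weight_eq {n : ℕ} (hn : 0 < n) (F : ℤ → ℝ) (h0 : F 0 = 0)
    (A : Finset (Triangle n) → Prop)
    (hF : ∀ S : Finset (Triangle n), IsHypertree S → Nat.card (HOne ℤ S) ≠ 0 →
      ((A S → F ((Nat.card (HOne ℤ S) : ℤ) ^ 2) = (Nat.card (HOne ℤ S) : ℝ) ^ 2) ∧
        (¬ A S → F ((Nat.card (HOne ℤ S) : ℤ) ^ 2) = 0))) :
    ∑ τ : E' n → HT.Tri n, F ((M τ).det ^ 2) =
      (6 ^ Fintype.card (E' n) * (Fintype.card (E' n)).factorial) * weight n A := by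
  classical
  rw [HT.bridge_sum hn F h0, sum_toTri]
  congr 1
  unfold weight
  rw [Finset.sum_filter]
  refine Finset.sum_congr rfl fun S _ => ?_
  rw [gram_toTri]
  by_cases hc : S.card = (n - 1).choose 2
  · rw [if_pos hc]
    rw [← HT.bridge_card] at hc
    obtain ⟨h1, h2⟩ := det_gram_eq hn S hc
    by_cases hS : IsHypertree S
    · obtain ⟨h3, h4⟩ := h1 hS
      obtain ⟨h5, h6⟩ := hF S hS h4
      by_cases hA : A S
      · rw [if_pos ⟨hS, hA⟩, h3, h5 hA]
      · rw [if_neg (fun h => hA h.2), h3, h6 hA]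
    · rw [if_neg (fun h => hS h.1), h2 hS, h0]
  · rw [if_neg hc, if_neg]
    rintro ⟨hS, _⟩
    rw [← HT.bridge_card] at hc
    exact hc (card_of_isHypertree hn S hS)

theorem weight_pos {n : ℕ} (hn : 0 < n) : 0 < weight n (fun _ => True) := by
  have h := weight_eq hn (fun D : ℤ => (D : ℝ)) (by simp) (fun _ => True) (by
    intro S _ _
    refine ⟨fun _ => by push_cast; rfl, fun h => absurd trivial h⟩)
  have h2 : Z n = ∑ τ : E' n → HT.Tri n, (fun D : ℤ => (D : ℝ)) ((M τ).det ^ 2) := by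
    unfold Z wt
    refine Finset.sum_congr rfl fun τ _ => ?_
    push_cast
    rfl
  rw [← h2] at h
  have h3 : 0 < Z n := HT.Z_pos n hn
  rw [h] at h3
  exact (mul_pos_iff_of_pos_left (by positivity)).1 h3

theorem main (ε : ℝ) (hε : 0 < ε) :
    ∃ L : ℕ, ∀ p : ℕ, p.Prime → ∃ N : ℕ, ∀ n : ℕ, N ≤ n →
      prob n (fun S => p ^ L < Nat.card (AddCommGroup.primaryComponent (HOne ℤ S) p)) < ε := by
  obtain ⟨L, hL⟩ := main_uniform ε hε
  refine ⟨L, fun p hp => ?_⟩
  have : Fact p.Prime := ⟨hp⟩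
  obtain ⟨N, hN⟩ := hL p hp
  refine ⟨max N 1, fun n hn => ?_⟩
  have hn1 : 0 < n := le_trans (le_max_right _ _) hn
  have hm := hN n (le_trans (le_max_left _ _) hn)
  set K := p ^ L with hK
  set Ft : ℤ → ℝ := fun D => if K < p ^ (padicValInt p D / 2) then (D : ℝ) else 0 with hFt
  have hval : ∀ d : ℤ, padicValInt p (d ^ 2) / 2 = padicValInt p d := by
    intro d
    rcases eq_or_ne d 0 with hd | hd
    · subst hd
      simp
    · rw [pow_two, padicValInt.mul hd hd]
      omega
  have e1 : mass (fun τ : E' n → HT.Tri n => K < p ^ padicValInt p (M τ).det) =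
      ∑ τ : E' n → HT.Tri n, Ft ((M τ).det ^ 2) := by
    unfold mass wt
    refine Finset.sum_congr rfl fun τ _ => ?_
    simp only [hFt, hval]
    by_cases hK : K < p ^ padicValInt p (M τ).det
    · rw [if_pos hK, if_pos hK]
      push_cast
      rfl
    · rw [if_neg hK, if_neg hK]
  have e2 : Z n = ∑ τ : E' n → HT.Tri n, (fun D : ℤ => (D : ℝ)) ((M τ).det ^ 2) := by
    unfold Z wt
    refine Finset.sum_congr rfl fun τ _ => ?_
    push_cast
    rfl
  rw [e1, e2, weight_eq hn1 Ft (by simp [hFt])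
      (fun S => K < Nat.card (AddCommGroup.primaryComponent (HOne ℤ S) p)) (by
        intro S _ hc
        rw [card_primary p hc]
        simp only [hFt, hval, padicValInt.of_nat]
        constructor
        · intro h; rw [if_pos h]; push_cast; rfl
        · intro h; rw [if_neg h]),
    weight_eq hn1 (fun D : ℤ => (D : ℝ)) (by simp) (fun _ => True) (by
      intro S _ _
      refine ⟨fun _ => by push_cast; rfl, fun h => absurd trivial h⟩), mul_left_comm] at hm
  have hpos : (0 : ℝ) < 6 ^ Fintype.card (E' n) * (Fintype.card (E' n)).factorial := by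
    positivity
  have hm2 := lt_of_mul_lt_mul_left hm hpos.le
  rw [prob, div_lt_iff₀ (weight_pos hn1)]
  exact hm2

end Pool.Agent.HTI
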